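import Mathlib

/-!
# Rationality of Gushel-Mukai fourfolds and of cubic fourfolds: data and known facts
-/

namespace Pool.Agent.N522.GM

/-- A family of smooth projective varieties over an irreducible base over `ℂ`. -/
structure Family where
  /-- the parameters -/
  P : Type
  /-- contained in a countable union of proper Zariski-closed subsets of the parameter space -/
  Small : Set P → Prop
  /-- the parameters of rational varieties -/
  Rat : Set P

/-- General facts on families. -/
structure Family.Facts (F : Family) : Prop where
  /-- subsets of small sets are small -/
  mono : ∀ A B : Set F.P, A ⊆ B → F.Small B → F.Small A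
  /-- unions of two small sets are small -/
  union : ∀ A B : Set F.P, F.Small A → F.Small B → F.Small (A ∪ B)
  /-- the parameter space is not small (Baire, `ℂ` is uncountable) -/
  not_small : ¬ F.Small Set.univ
  /-- The rational members form a countable union of closed subsets (de Fernex-Fusi,
  Kontsevich-Tschinkel): either all members are rational or the rational ones are a small set. -/
  specialize : F.Rat = Set.univ ∨ F.Small F.Rat

/-- The very general member is rational. -/
def VeryGeneralRational (F : Family) : Prop := F.Small F.Ratᶜ

/-- Two families, with the relation that two members are birational. -/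
structure Theory where
  /-- smooth Gushel-Mukai fourfolds -/
  gm : Family
  /-- smooth cubic fourfolds of discriminant 12 (the closure, among smooth cubic fourfolds, of those
  that contain a smooth cubic scroll) -/
  cubic : Family
  /-- birational -/
  Bir : gm.P → cubic.P → Prop

/-- Known facts. -/
structure Facts (T : Theory) : Prop where
  /-- the family of Gushel-Mukai fourfolds -/
  gm : T.gm.Facts
  /-- the family of cubic fourfolds -/
  cubic : T.cubic.Facts
  /-- birational varieties are both rational or both irrational -/
  bir : ∀ x y, T.Bir x y → (x ∈ T.gm.Rat ↔ y ∈ T.cubic.Rat)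
  /-- The general cubic fourfold with a smooth cubic scroll is birational to a smooth Gushel-Mukai
  fourfold that contains a plane of type `Gr(2,3)` (Debarre-Iliev-Manivel, Kuznetsov-Perry). -/
  link : T.cubic.Small {y | ¬ ∃ x, T.Bir x y}

theorem all_of_veryGeneral (F : Family) (h : F.Facts) (hv : VeryGeneralRational F) :
    F.Rat = Set.univ := by
  rcases h.specialize with h1 | h1
  · exact h1
  · refine absurd ?_ h.not_small
    have := h.union _ _ h1 hv
    rwa [Set.union_compl_self] at this

/-- If the very general Gushel-Mukai fourfold is rational, all smooth cubic fourfolds of
discriminant 12 are rational. -/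
theorem cubic_rational {T : Theory} (F : Facts T) (h : VeryGeneralRational T.gm) :
    T.cubic.Rat = Set.univ := by
  have h1 := all_of_veryGeneral T.gm F.gm h
  refine all_of_veryGeneral T.cubic F.cubic (F.cubic.mono _ _ ?_ F.link)
  rintro y hy ⟨x, hx⟩
  exact hy ((F.bir x y hx).1 (by rw [h1]; trivial))

/-- One irrational cubic fourfold of discriminant 12 suffices. -/
theorem gm_irrational {T : Theory} (F : Facts T) (h : ∃ y, y ∉ T.cubic.Rat) :
    T.gm.Small T.gm.Rat := by
  rcases F.gm.specialize with h1 | h1
  · exfalso
    obtain ⟨y, hy⟩ := h
    have h2 : T.cubic.Rat = Set.univ := by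
      refine all_of_veryGeneral T.cubic F.cubic (F.cubic.mono _ _ ?_ F.link)
      rintro z hz ⟨x, hx⟩
      exact hz ((F.bir x z hx).1 (by rw [h1]; trivial))
    exact hy (by rw [h2]; trivial)
  · exact h1

end Pool.Agent.N522.GM
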